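import Mathlib

/-!
# Kneser graphs and alternating orientations

The Kneser graph `KG(8, 3)` has odd girth `5` and has no orientation in which every shortest odd
cycle is alternating.
-/

namespace Pool.Agent.Results.MP_573991_co.KG83

open Finset

/-- The Kneser graph `KG(n, k)`: the `k`-element subsets of an `n`-element set, two of them
adjacent when they are distinct and disjoint. -/
def KG (n k : ℕ) : SimpleGraph {s : Finset (Fin n) // s.card = k} where
  Adj s t := s ≠ t ∧ Disjoint s.1 t.1
  symm := ⟨fun _ _ h => ⟨h.1.symm, h.2.symm⟩⟩
  loopless := ⟨fun _ h => h.1 rfl⟩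

/-- `D` is an orientation of `G`: it relates only adjacent vertices, and every edge `uv` is
directed in exactly one way. -/
def IsOrientation {V : Type*} (G : SimpleGraph V) (D : V → V → Prop) : Prop :=
  (∀ u v, D u v → G.Adj u v) ∧ ∀ u v, G.Adj u v → (D u v ↔ ¬ D v u)

/-- `c` lists the vertices of a cycle of length `m` of `G` in cyclic order. -/
def IsCyc {V : Type*} (G : SimpleGraph V) (m : ℕ) (c : ZMod m → V) : Prop :=
  3 ≤ m ∧ Function.Injective c ∧ ∀ i, G.Adj (c i) (c (i + 1))

/-- `c` lists the vertices of a shortest odd cycle of `G` in cyclic order. -/
def IsShortestOddCyc {V : Type*} (G : SimpleGraph V) (m : ℕ) (c : ZMod m → V) : Prop :=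
  Odd m ∧ IsCyc G m c ∧ ∀ (m' : ℕ) (c' : ZMod m' → V), Odd m' → IsCyc G m' c' → m ≤ m'

/-- The vertex `c i` of the cycle has positive in-degree inside the cycle. -/
def HasIn {V : Type*} (D : V → V → Prop) {m : ℕ} (c : ZMod m → V) (i : ZMod m) : Prop :=
  D (c (i - 1)) (c i) ∨ D (c (i + 1)) (c i)

/-- The vertex `c i` of the cycle has positive out-degree inside the cycle. -/
def HasOut {V : Type*} (D : V → V → Prop) {m : ℕ} (c : ZMod m → V) (i : ZMod m) : Prop :=
  D (c i) (c (i - 1)) ∨ D (c i) (c (i + 1))

/-- The oriented odd cycle `c` is alternating: exactly one of its vertices has both positive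
in-degree and positive out-degree in the cycle. -/
def Alternating {V : Type*} (D : V → V → Prop) {m : ℕ} (c : ZMod m → V) : Prop :=
  ∃! i, HasIn D c i ∧ HasOut D c i

/-! ## The odd girth of `KG(8, 3)` is `5` -/

/-- The vertices of `KG(8, 3)`. -/
abbrev W := {s : Finset (Fin 8) // s.card = 3}

theorem no_triangle (a b c : W) (h1 : Disjoint a.1 b.1) (h2 : Disjoint b.1 c.1)
    (h3 : Disjoint a.1 c.1) : False := by
  have e1 : (a.1 ∪ b.1).card = 6 := by rw [card_union_of_disjoint h1, a.2, b.2]
  have h4 : Disjoint (a.1 ∪ b.1) c.1 := disjoint_union_left.2 ⟨h3, h2⟩
  have e2 : ((a.1 ∪ b.1) ∪ c.1).card = 9 := by rw [card_union_of_disjoint h4, e1, c.2]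
  have := card_le_univ ((a.1 ∪ b.1) ∪ c.1)
  rw [Fintype.card_fin] at this
  omega

theorem adj_of_disjoint {a b : W} (h : Disjoint a.1 b.1) : (KG 8 3).Adj a b := by
  refine ⟨?_, h⟩
  rintro rfl
  have : a.1 = ∅ := by
    have := disjoint_self.1 h
    exact this
  have h2 := a.2
  rw [this] at h2
  simp at h2

/-- A closed walk of length `5` is a shortest odd cycle. -/
theorem isShortest (f : ZMod 5 → W) (hf : ∀ i, (KG 8 3).Adj (f i) (f (i + 1))) :
    IsShortestOddCyc (KG 8 3) 5 f := by
  refine ⟨by decide, ⟨by norm_num, ?_, hf⟩, ?_⟩
  · -- injectivity
    have h1 : ∀ i, f i ≠ f (i + 1) := fun i => (hf i).1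
    have h2 : ∀ i, f i ≠ f (i + 2) := by
      intro i h
      have a1 := (hf (i + 2)).2
      have a2 := (hf (i + 3)).2
      have a3 := (hf (i + 4)).2
      have e1 : i + 2 + 1 = i + 3 := by ring
      have e2 : i + 3 + 1 = i + 4 := by ring
      have e3 : i + 4 + 1 = i := by
        have : (5 : ZMod 5) = 0 := by decide
        linear_combination this
      rw [e1, ← h] at a1
      rw [e2] at a2
      rw [e3] at a3
      exact no_triangle _ _ _ a1 a2 a3.symm
    intro i j hij
    by_contra hne
    have key : ∀ i j : ZMod 5, i ≠ j → j = i + 1 ∨ i = j + 1 ∨ j = i + 2 ∨ i = j + 2 := by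
      decide
    rcases key i j hne with h | h | h | h
    · exact h1 i (by rw [← h]; exact hij)
    · exact h1 j (by rw [← h]; exact hij.symm)
    · exact h2 i (by rw [← h]; exact hij)
    · exact h2 j (by rw [← h]; exact hij.symm)
  · intro m' c' hodd hc
    have h3 : m' ≠ 3 := by
      rintro rfl
      have a1 := (hc.2.2 0).2
      have a2 := (hc.2.2 1).2
      have a3 := (hc.2.2 2).2
      have e1 : (0 : ZMod 3) + 1 = 1 := by decide
      have e2 : (1 : ZMod 3) + 1 = 2 := by decide
      have e3 : (2 : ZMod 3) + 1 = 0 := by decide
      rw [e1] at a1
      rw [e2] at a2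
      rw [e3] at a3
      exact no_triangle _ _ _ a1 a2 a3.symm
    have h4 : m' ≠ 4 := by
      rintro rfl
      revert hodd
      decide
    have := hc.1
    omega

/-- No directed path of three edges whose ends meet. -/
theorem no_path (D : W → W → Prop)
    (halt : ∀ (m : ℕ) (c : ZMod m → W), IsShortestOddCyc (KG 8 3) m c → Alternating D c)
    (a b c d : W) (hab : Disjoint a.1 b.1) (hbc : Disjoint b.1 c.1) (hcd : Disjoint c.1 d.1)
    (had : ¬ Disjoint a.1 d.1) (h1 : D a b) (h2 : D b c) (h3 : D c d) : False := by
  have hcard : (a.1 ∪ d.1).card ≤ 5 := by
    have e1 := card_union_add_card_inter a.1 d.1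
    rw [a.2, d.2] at e1
    have e2 : 0 < (a.1 ∩ d.1).card := by
      rw [card_pos]
      rwa [not_disjoint_iff_nonempty_inter] at had
    omega
  have hcompl : 3 ≤ ((a.1 ∪ d.1)ᶜ).card := by
    rw [card_compl, Fintype.card_fin]
    omega
  obtain ⟨e', he', he3⟩ := exists_subset_card_eq hcompl
  let e : W := ⟨e', he3⟩
  have hdis : Disjoint e' (a.1 ∪ d.1) := by
    rw [disjoint_left]
    intro x hx hx'
    exact (mem_compl.1 (he' hx)) hx'
  have hea : Disjoint e.1 a.1 := (disjoint_union_right.1 hdis).1
  have hed : Disjoint e.1 d.1 := (disjoint_union_right.1 hdis).2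
  let f : ZMod 5 → W := (![a, b, c, d, e] : Fin 5 → W)
  have hf : ∀ i, (KG 8 3).Adj (f i) (f (i + 1)) := by
    intro i
    apply adj_of_disjoint
    change Fin 5 at i
    fin_cases i
    · exact hab
    · exact hbc
    · exact hcd
    · exact hed.symm
    · exact hea
  obtain ⟨i, -, hi⟩ := halt 5 f (isShortest f hf)
  have i1 := hi (1 : ZMod 5) ⟨Or.inl h1, Or.inr h2⟩
  have i2 := hi (2 : ZMod 5) ⟨Or.inl h2, Or.inr h3⟩
  rw [← i2] at i1
  revert i1
  decide

/-! ## Bit masks -/

/-- The subset of `{0, …, 7}` with bit mask `m`. -/
def toS (m : ℕ) : Finset (Fin 8) := univ.filter fun i => m.testBit i.val = true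

/-- Number of ones among the last eight bits. -/
def pop (m : ℕ) : ℕ :=
  (m.testBit 0).toNat + (m.testBit 1).toNat + (m.testBit 2).toNat + (m.testBit 3).toNat +
  (m.testBit 4).toNat + (m.testBit 5).toNat + (m.testBit 6).toNat + (m.testBit 7).toNat

theorem card_toS (m : ℕ) : (toS m).card = pop m := by
  have hb : ∀ b : Bool, (if b = true then 1 else 0) = b.toNat := by decide
  rw [toS, card_filter, Fin.sum_univ_eight, pop]
  simp only [hb]
  rfl

/-- The vertex with bit mask `m`. -/
def toV (m : ℕ) : W := if h : (toS m).card = 3 then ⟨toS m, h⟩ else ⟨{0, 1, 2}, by decide⟩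

theorem toV_val {m : ℕ} (h : pop m = 3) : (toV m).1 = toS m := by
  rw [toV, dif_pos (by rw [card_toS]; exact h)]

/-- Are the masks `a`, `b` masks of disjoint triples? -/
def dj (a b : ℕ) : Bool := (Nat.beq (pop a) 3 && Nat.beq (pop b) 3) && Nat.beq (a &&& b) 0

/-- Do the triples with masks `a`, `b` meet? -/
def mt (a b : ℕ) : Bool := (Nat.beq (pop a) 3 && Nat.beq (pop b) 3) &&
  !(Nat.beq (pop (a &&& b)) 0)

theorem nbeq {a b : ℕ} : Nat.beq a b = false ↔ a ≠ b := by
  rw [← Bool.not_eq_true, Nat.beq_eq]

theorem dj_spec {a b : ℕ} (h : dj a b = true) : Disjoint (toV a).1 (toV b).1 := by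
  simp only [dj, Bool.and_eq_true, Nat.beq_eq] at h
  rw [toV_val h.1.1, toV_val h.1.2, disjoint_left]
  intro i hi hi'
  simp only [toS, mem_filter, mem_univ, true_and] at hi hi'
  have : (a &&& b).testBit i.val = true := by
    rw [Nat.testBit_and, hi, hi']
    rfl
  rw [h.2, Nat.zero_testBit] at this
  exact absurd this (by decide)

theorem mt_spec {a b : ℕ} (h : mt a b = true) : ¬ Disjoint (toV a).1 (toV b).1 := by
  simp only [mt, Bool.and_eq_true, Nat.beq_eq, Bool.not_eq_true', nbeq] at h
  rw [toV_val h.1.1, toV_val h.1.2]
  intro hd
  apply h.2
  rw [← card_toS, card_eq_zero, eq_empty_iff_forall_notMem]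
  intro i hi
  simp only [toS, mem_filter, mem_univ, true_and, Nat.testBit_and, Bool.and_eq_true] at hi
  rw [disjoint_left] at hd
  exact hd (a := i) (by simp [toS, hi.1]) (by simp [toS, hi.2])

/-! ## The certificate checker -/

/-- Membership in a list of numbers. -/
def mem (x : ℕ) : List ℕ → Bool
  | [] => false
  | y :: l => (Nat.beq x y).rec (mem x l) true

theorem mem_spec {x : ℕ} {l : List ℕ} (h : mem x l = true) : x ∈ l := by
  induction l with
  | nil => exact absurd h (by simp [mem])
  | cons y l ih =>
    rw [mem] at h
    by_cases hxy : x = y
    · rw [hxy]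
      exact List.mem_cons_self
    · have : Nat.beq x y = false := by
        rw [nbeq]
        exact hxy
      rw [this] at h
      exact List.mem_cons_of_mem _ (ih h)

/-- The code of the arc from `a` to `b`. -/
def arc (a b : ℕ) : ℕ := a * 256 + b

/-- All four masks of a directed path with meeting ends. -/
def okp (a b c d : ℕ) : Bool := (dj a b && dj b c) && (dj c d && mt a d)

/-- One step of the certificate, coded as `(((tag * 256 + a) * 256 + b) * 256 + c) * 256 + d`,
is run with the list `K` of the codes of the known arcs. Tags: `0`, `1`, `2`: the first, second,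
third arc of the path `a b c d` is reversed because the other two are known; `3`: all three arcs
are known, the branch is closed; `4`: split on the direction of the edge `a b`. The result is the
rest of the certificate after closing the current branch. -/
def run : ℕ → List ℕ → List ℕ → Option (List ℕ)
  | 0, _, _ => none
  | _ + 1, [], _ => none
  | n + 1, s :: r, K =>
    let d := s % 256
    let c := (s / 256) % 256
    let b := (s / 65536) % 256
    let a := (s / 16777216) % 256
    match s / 4294967296 with
    | 0 => if okp a b c d && (mem (arc b c) K && mem (arc c d) K) then run n r (arc b a :: K)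
        else none
    | 1 => if okp a b c d && (mem (arc a b) K && mem (arc c d) K) then run n r (arc c b :: K)
        else none
    | 2 => if okp a b c d && (mem (arc a b) K && mem (arc b c) K) then run n r (arc d c :: K)
        else none
    | 3 => if okp a b c d && (mem (arc a b) K && (mem (arc b c) K && mem (arc c d) K))
        then some r else none
    | _ => if dj a b then
        (match run n r (arc a b :: K) with
        | some r' => run n r' (arc b a :: K)
        | none => none)
        else none

/-- The known arcs hold. -/
def Holds (D : W → W → Prop) (K : List ℕ) : Prop :=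
  ∀ x ∈ K, D (toV (x / 256)) (toV (x % 256))

theorem pop_lt_mod {a b : ℕ} : (a % 256) * 256 + b % 256 = arc (a % 256) (b % 256) := rfl

theorem holds_cons (D : W → W → Prop) {K : List ℕ} (hK : Holds D K) {a b : ℕ} (hb : b < 256)
    (h : D (toV a) (toV b)) : Holds D (arc a b :: K) := by
  intro x hx
  rcases List.mem_cons.1 hx with rfl | hx
  · have e1 : arc a b / 256 = a := by
      unfold arc
      omega
    have e2 : arc a b % 256 = b := by
      unfold arc
      omega
    rw [e1, e2]
    exact h
  · exact hK x hx

theorem holds_mem (D : W → W → Prop) {K : List ℕ} (hK : Holds D K) {a b : ℕ} (hb : b < 256)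
    (h : mem (arc a b) K = true) : D (toV a) (toV b) := by
  have := hK _ (mem_spec h)
  have e1 : arc a b / 256 = a := by
    unfold arc
    omega
  have e2 : arc a b % 256 = b := by
    unfold arc
    omega
  rwa [e1, e2] at this

theorem run_sound (D : W → W → Prop) (hD : ∀ u v : W, Disjoint u.1 v.1 → D u v ∨ D v u)
    (hP : ∀ a b c d : W, Disjoint a.1 b.1 → Disjoint b.1 c.1 → Disjoint c.1 d.1 →
      ¬ Disjoint a.1 d.1 → D a b → D b c → D c d → False) :
    ∀ (n : ℕ) (s K : List ℕ) (r : List ℕ), run n s K = some r → Holds D K → False := by
  intro n
  induction n with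
  | zero =>
    intro s K r h
    exact absurd h (by simp [run])
  | succ n ih =>
    intro s K r h hK
    cases s with
    | nil => exact absurd h (by simp [run])
    | cons s rest =>
      rw [run] at h
      have ha : (s / 16777216) % 256 < 256 := Nat.mod_lt _ (by norm_num)
      have hb : (s / 65536) % 256 < 256 := Nat.mod_lt _ (by norm_num)
      have hc : (s / 256) % 256 < 256 := Nat.mod_lt _ (by norm_num)
      have hd : s % 256 < 256 := Nat.mod_lt _ (by norm_num)
      generalize (s / 16777216) % 256 = a at h ha
      generalize (s / 65536) % 256 = b at h hb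
      generalize (s / 256) % 256 = c at h hc
      generalize s % 256 = d at h hd
      have hok : okp a b c d = true → (Disjoint (toV a).1 (toV b).1 ∧
          Disjoint (toV b).1 (toV c).1 ∧ Disjoint (toV c).1 (toV d).1 ∧
          ¬ Disjoint (toV a).1 (toV d).1) := by
        intro hk
        simp only [okp, Bool.and_eq_true] at hk
        exact ⟨dj_spec hk.1.1, dj_spec hk.1.2, dj_spec hk.2.1, mt_spec hk.2.2⟩
      split at h
      · split at h
        · rename_i hcond
          simp only [Bool.and_eq_true] at hcond
          obtain ⟨h1, h2, h3, h4⟩ := hok hcond.1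
          refine ih _ _ _ h (holds_cons D hK ha ?_)
          have k1 := holds_mem D hK hc hcond.2.1
          have k2 := holds_mem D hK hd hcond.2.2
          rcases hD _ _ h1 with k | k
          · exact (hP _ _ _ _ h1 h2 h3 h4 k k1 k2).elim
          · exact k
        · exact absurd h (by simp)
      · split at h
        · rename_i hcond
          simp only [Bool.and_eq_true] at hcond
          obtain ⟨h1, h2, h3, h4⟩ := hok hcond.1
          refine ih _ _ _ h (holds_cons D hK hb ?_)
          have k1 := holds_mem D hK hb hcond.2.1
          have k2 := holds_mem D hK hd hcond.2.2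
          rcases hD _ _ h2 with k | k
          · exact (hP _ _ _ _ h1 h2 h3 h4 k1 k k2).elim
          · exact k
        · exact absurd h (by simp)
      · split at h
        · rename_i hcond
          simp only [Bool.and_eq_true] at hcond
          obtain ⟨h1, h2, h3, h4⟩ := hok hcond.1
          refine ih _ _ _ h (holds_cons D hK hc ?_)
          have k1 := holds_mem D hK hb hcond.2.1
          have k2 := holds_mem D hK hc hcond.2.2
          rcases hD _ _ h3 with k | k
          · exact (hP _ _ _ _ h1 h2 h3 h4 k1 k2 k).elim
          · exact k
        · exact absurd h (by simp)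
      · split at h
        · rename_i hcond
          simp only [Bool.and_eq_true] at hcond
          obtain ⟨h1, h2, h3, h4⟩ := hok hcond.1
          exact hP _ _ _ _ h1 h2 h3 h4 (holds_mem D hK hb hcond.2.1)
            (holds_mem D hK hc hcond.2.2.1) (holds_mem D hK hd hcond.2.2.2)
        · exact absurd h (by simp)
      · split at h
        · rename_i hdj
          split at h
          · rename_i r' hr'
            rcases hD _ _ (dj_spec hdj) with k | k
            · exact ih _ _ _ hr' (holds_cons D hK hb k)
            · exact ih _ _ _ h (holds_cons D hK ha k)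
          · exact absurd h (by simp)
        · exact absurd h (by simp)

/-- The certificate. -/
def cert : List ℕ :=
  [18132107264, 8711094836, 2550610114, 8711094812, 8711094821, 2953263298, 2819045570,
   8711094805, 8711094809, 8711094797, 1476868290, 3758569666, 3355916482, 8711094828,
   8711094825, 1879521474, 8711094833, 1745303746, 3490134210, 4425528514, 4422378946,
   4427095234, 4418184642, 4423945666, 4423423426, 4425520578, 4419229122, 4427094466,
   4426042818, 4419751362, 4426050754, 4426049986, 17538613248, 4653714896, 17656053760,
   18064932864, 5180042448, 5180038242, 17809670144, 4924773800, 4924781761, 17559977984,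
   5180036776, 4676729026, 8711094578, 8711094566, 8711094570, 8711094542, 4660409025,
   4426049217, 4422379201, 4921501377, 4520414913, 4423945921, 18057068544, 5172176592,
   5172172456, 18414305280, 8963855458, 1361463700, 9232290857, 4541401492, 2301905300,
   421939604, 1376608916, 5176386196, 4934165140, 4937821378, 4518455700, 689326512, 8948713810,
   8948685190, 5038507545, 2250855049, 13256722001, 4519531593, 6782792392, 6784424416,
   18023251968, 5138364610, 8711062922, 8951317936, 2201258565, 4419783237, 187992645,
   5168148549, 5175982149, 8951328899, 8951328779, 1286605680, 8711078732, 15842706288,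
   944058953, 2454008513, 9750858118, 709177929, 9750890531, 2722443976, 5456299593, 5462174160,
   4921525833, 5455385673, 6548890568, 5463218530, 428226753, 696662209, 10840805988, 596912833,
   11075279010, 1679401560, 15134712978, 642331842, 9818114641, 9818114672, 9817184417,
   5522215306, 2702078090, 1359913304, 13125101208, 8718390977, 8718390881, 1361887510,
   4416127254, 5176451350, 5038516246, 1629274424, 9066089041, 13013373322, 10907654242,
   361375064, 15201559192, 717305032, 650196162, 11831396387, 750859464, 11831396371, 482424008,
   7534814152, 7535858632, 11829797528, 11829797524, 4925694748, 2485329120, 8911638570,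
   7535499362, 7535760482, 9187108425, 4891887910, 14119348944, 8814468163, 2237799618,
   2304908482, 1242915356, 876813536, 8814495050, 8948713780, 4652151945, 14012402309,
   10235521094, 10235504774, 476190056, 2355238338, 224531880, 425858472, 10235504771,
   5940790952, 5471045224, 5941003112, 5948322242, 10234998860, 830872032, 1283661024,
   6497776012, 15136279728, 18132041728, 8711094578, 834812097, 11848433942, 8711094566,
   633485505, 3758569665, 11848433934, 8711094556, 2550610113, 11848433962, 8711094554,
   432158913, 365050049, 3355916481, 8711094580, 4425528001, 7552962241, 4427093697, 7551395521,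
   7552178881, 4427094565, 4427095233, 7551134401, 17605853184, 4779415908, 11846378641,
   885135716, 750917988, 11846378633, 2435193312, 2300975584, 7552668004, 7553190244, 9236982866,
   4941500972, 14269625537, 4422394905, 17546870784, 5146940896, 750917088, 9296011289,
   9296005139, 9296005169, 9296005157, 9296005155, 482481608, 7552635848, 2204375520, 2456033760,
   1628320200, 1679435208, 7551591368, 4737733420, 8915288860, 8915292769, 4536212611,
   13473964434, 5974384661, 589094933, 3290095637, 1679482901, 8973720004, 4767073305,
   9038996376, 13327702051, 18123915264, 3490134085, 1745303621, 381761605, 230832197,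
   11848402218, 750860357, 11848402226, 4426050117, 7550612037, 18031378432, 5146487504,
   9441455249, 9441449576, 2435498296, 4419260716, 13599074326, 11831217616, 717304333,
   16125710349, 18128175104, 9751266920, 750925958, 8711079449, 2454009990, 650197126,
   3490134150, 5462190214, 7535466886, 17931698176, 432155856, 11847651366, 16141330128,
   1745342508, 8721018002, 13009195564, 18123980800, 247543878, 3490134086, 2454009926,
   11831625392, 11848402584, 1636186182, 7533932614, 6549510214, 17421107200, 11828879762,
   1169165921, 15842251361, 11146432208, 127426830, 15435550734, 18127978496, 9768043368,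
   2953263235, 1367750787, 9751266136, 2819045507, 650197123, 2437298307, 5478901891, 7535483011,
   17304125440, 1476880529, 8714228006, 13008119441, 10335266897, 2254964656, 14638535080,
   18128109568, 9751266648, 3490134149, 230832261, 9768043888, 1283668101, 2722445445,
   5463234693, 7550627973, 17408589824, 10469876300, 2205158818, 14772554914, 9758182864,
   123249165, 14361808909, 18123784192, 11848401840, 826685507, 11831624616, 1250244675,
   365049923, 1283668035, 3355916355, 6497808451, 6531231811, 7551166531, 17308844032,
   2819076172, 8718928405, 13013357898, 1185941448, 11543234609, 15842292168, 18132238336,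
   9717728297, 8711095322, 482490564, 1636186308, 2487433412, 1250244804, 5428750788, 6549478084,
   18816958464, 10844476490, 2233098644, 13329844884, 3257504865, 9287524636, 13585488993,
   18348113920, 18349031424, 18315476992, 17308844032, 17889034240, 2435466658, 2234140066,
   3291104674, 9299141208, 9299141145, 1412056376, 9299141148, 9299144778, 3240773026,
   5009131064, 5008345776, 5008349346, 5012461986, 5005148984, 5012266146, 826967352, 643335480,
   593003832, 5539742776, 5773902136, 5773706289, 2199699750, 9072354961, 9022219092, 9068303528,
   2823196966, 14070338595, 17897160704, 2435498296, 9750364444, 9750364468, 1412088120,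
   9750352226, 1646051640, 2301935928, 9750336649, 5176386193, 13361121620, 17897357312,
   1361757240, 9750365195, 2435499064, 2319788740, 11830710666, 1678492728, 9750352228,
   5461664913, 13076040273, 17893228544, 9750349168, 1361741112, 1412072760, 650193541,
   2305852728, 9750335782, 9750336649, 7535495508, 14772938321, 19067633664, 10477710032,
   2205189418, 2322629930, 10477709972, 10477709905, 10477709908, 191923512, 2305852714,
   2255521066, 124814634, 10477709969, 2356184376, 6174527530, 6182622250, 6183080234,
   6174774314, 6182818090, 6183011896, 10469486665, 10469486668, 10469486666, 6183207856,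
   751830960, 701499312, 651167544, 5712858288, 2824110904, 7787139466, 5662722480, 5715284358,
   5664949897, 5656431024, 6182750896, 7787529100, 7787545400, 7787349560, 827097900, 2437710648,
   2487846456, 5573265064, 5579556520, 5522231594, 5472602757, 5421961510, 5539726889,
   9874515481, 9824373604, 5478900747, 426021164, 5974361649, 14772738342, 6533679024,
   17890017280, 11830711464, 381758036, 432286292, 750856788, 11830711458, 885074516, 834939476,
   10824078474, 1250241108, 7534454868, 7584981588, 7535870896, 7536413268, 7586548276,
   2823135769, 9758185892, 2319819289, 5463622444, 9756619082, 6531228697, 2755897366,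
   14019742257, 17304125440, 4419257642, 17624793088, 1159365992, 9034885266, 3290072424,
   9034887306, 4735734376, 9030705745, 4735732336, 9030709324, 9030705689, 4744026530, 747783480,
   1284654392, 697451938, 6747345314, 831145258, 1368016304, 6613454000, 2249835562, 11044401542,
   6747162161, 4723200300, 15205500457, 6528058800, 17371758592, 5430578032, 4486891064,
   4486890296, 4491068984, 17922457600, 1378632624, 1361855288, 2200716208, 3257680816,
   9332568077, 3240903600, 9332568140, 9336746122, 5041769648, 5041771562, 9336746121,
   5045882288, 9340791317, 5038508656, 827097968, 693404528, 2320794424, 2304017208, 5038573936,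
   4525790506, 10008285478, 5573296696, 5706990129, 5713241681, 9236468265, 13249947986,
   5421958000, 4419257132, 17876516864, 1412007536, 1177126512, 371820144, 9286610958,
   9286611082, 3492382264, 4988371824, 4988373616, 9283316369, 9282433098, 4987457834,
   4984324408, 4996468336, 10793265872, 629822506, 6612667056, 244401720, 6728630550,
   11828908069, 14128893994, 6545851434, 6545822762, 6528091177, 5463233577, 17377263616,
   8787339921, 2483799066, 8787339666, 8787335777, 1678492714, 1410057272, 8787335841,
   4486107434, 4489240858, 6734254633, 4485062938, 8780030540, 11296582292, 1285641258,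
   5430594722, 2455868458, 7001117284, 14521879728, 851708848, 331615088, 11879018636,
   7584044194, 11879018634, 834931568, 11879018633, 7586613616, 7584582768, 2303986608,
   2203323312, 2320763824, 7586548336, 5713249968, 10007817297, 10007817298, 10007832597,
   10007832595, 5713302888, 5713318188, 1645578801, 642878001, 5478371884, 1384911720,
   4653746482, 5656447330, 15239121190, 10828647392, 10828647252, 10828647268, 1250258955,
   10828647376, 10828647344, 5454356491, 5463233547, 6531231755, 5455400971, 2454040587,
   474198027, 742633483, 5420933146, 3490164810, 3758600266, 5421977642, 5462189067, 8722062371,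
   8722062498, 4426048284, 8721018002, 1411633196, 426021420, 5974368796, 13477650969,
   2204633008, 2489845680, 359139128, 10335252618, 2456291248, 10335268940, 10335252491,
   2238187440, 6048404522, 6049500016, 6041209456, 6617596728, 6049385648, 10343492304,
   2824110960, 2320794424, 190087992, 9999979617, 5579628948, 6040309802, 5715265336, 5713322386,
   12080097301, 14521341352, 229639992, 1253050168, 843427847, 9759098712, 9725545890,
   9725545778, 9725561477, 5455906122, 2723678008, 2237178381, 14370025997, 9759114012,
   1286619960, 246432568, 2454040643, 589054776, 1629242168, 9759116323, 9759100513, 5462188302,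
   9062010002, 13361058380, 11547288089, 11547288092, 1236288824, 128992674, 246433080,
   1185957282, 11547288152, 1135625634, 7252351394, 7252155554, 7252575800, 7248238754,
   7248724280, 2753119800, 3759752760, 4725162808, 4729079608, 3239855012, 9064129609,
   2253916128, 9072348784, 1887848868, 14370107406, 1235371320, 1369589048, 1487029560,
   480396600, 430064952, 362956088, 1285702968, 228738360, 7017694776, 7018219064, 7018677048,
   7018677560, 7018645304, 7018677816, 7014760760, 7014761016, 7014728504, 7014744888,
   7014532664, 7014302264, 7017890616, 7013777976, 17660182528, 650189985, 2353208481,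
   11846590796, 9715884370, 834804897, 11846590808, 7535483041, 5428236961, 7552978081,
   1384470566, 10826714161, 15087710604, 6532145436, 18667012096, 1184979108, 8713184281,
   15590627748, 5471052888, 18010734592, 9420822565, 3258025560, 3358688824, 9420818710,
   9420820780, 5129774424, 9424737640, 5129776209, 9424735634, 9424739425, 5130163785,
   2451948060, 4925319189, 9340851656, 375951885, 6041264412, 14513784853, 6546375181,
   17813340160, 9223412833, 9223418188, 9223418126, 2451948060, 9223418252, 9223409008,
   4925317404, 1887652913, 6500126257, 6500158513, 1628336141, 10946088338, 13126177293,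
   17546870784, 11309277206, 750917088, 11846148107, 11309277203, 11846148122, 885134816,
   6547904224, 7552635872, 7553158112, 7017405152, 4668892185, 4616667448, 4482973996,
   2753185080, 3239748681, 9036908852, 13333771337, 17626824704, 7017405092, 7552178852,
   4741940024, 2702877721, 1679467608, 3759842392, 2554569816, 9724762468, 9724778533,
   2823005272, 4741744153, 4737762124, 9040827816, 9040827848, 5429011800, 5429027865,
   5430068897, 10794342469, 4735739925, 4733650965, 851977624, 9775367474, 16243639704,
   6547940378, 7048184120, 7048152376, 7018226714, 7048175900, 7048184888, 7048168760,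
   11312372321, 11312372324, 11312372261, 6497804570, 7014736154, 5471036442, 6548890906,
   700589338, 885138714, 11847161891, 7552484378, 7553188696, 7553204506, 5924201304,
   17772052480, 18816303104, 5931418936, 5931410776, 11312400948, 11847174737, 7051228298,
   851522698, 650196106, 7535481226, 10791176498, 11848141094, 7536264586, 11346716312,
   2554671689, 14052501065, 1686790428, 7552993889, 1418354970, 6616614473, 1166696732,
   6616810268, 6613452344, 6615737164, 1753637148, 1753441305, 6549964058, 18934398976,
   10794603594, 10794603561, 8054466708, 10794603562, 1384474772, 7552191124, 331622804,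
   6531721620, 7584573461, 6614755988, 2957649240, 717498706, 1250256915, 11881039280,
   15121166405, 6616618088, 596926746, 6780339256, 11075275825, 11075275826, 11075277961,
   851714904, 2303078732, 5478363724, 16176548180, 1686326307, 2454463260, 11296056272,
   2957779800, 11296056216, 6499375139, 11296084580, 198189912, 11296092171, 6851660720,
   16375309458]

theorem run_cert : run 2000 cert [arc 7 56] = some [] := by
  decide +kernel

theorem no_good (D : W → W → Prop) (hD : ∀ u v : W, Disjoint u.1 v.1 → D u v ∨ D v u)
    (hP : ∀ a b c d : W, Disjoint a.1 b.1 → Disjoint b.1 c.1 → Disjoint c.1 d.1 →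
      ¬ Disjoint a.1 d.1 → D a b → D b c → D c d → False) : False := by
  have hdj : Disjoint (toV 7).1 (toV 56).1 := dj_spec (by decide +kernel)
  have hnil : ∀ D : W → W → Prop, Holds D [] := by
    intro D x hx
    exact absurd hx (by simp)
  rcases hD _ _ hdj with h | h
  · exact run_sound D hD hP _ _ _ _ run_cert (holds_cons D (hnil D) (by norm_num) h)
  · refine run_sound (fun u v => D v u) (fun u v huv => (hD u v huv).symm) ?_ _ _ _ _ run_cert
      (holds_cons (fun u v => D v u) (hnil _) (by norm_num) h)
    intro a b c d h1 h2 h3 h4 k1 k2 k3
    exact hP d c b a h3.symm h2.symm h1.symm (fun h => h4 h.symm) k3 k2 k1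

/-- Negated form of Q1: there are `k ≥ 1` and `n ≥ 2 k + 1` (namely `k = 3`, `n = 8`) such that
every orientation of the Kneser graph `KG(n, k)` leaves some shortest odd cycle non-alternating. -/
theorem result : ∃ n k : ℕ, 1 ≤ k ∧ 2 * k + 1 ≤ n ∧ n = 8 ∧ k = 3 ∧
    ∀ D : {s : Finset (Fin n) // s.card = k} → {s : Finset (Fin n) // s.card = k} → Prop,
      IsOrientation (KG n k) D →
      ∃ (m : ℕ) (c : ZMod m → {s : Finset (Fin n) // s.card = k}),
        IsShortestOddCyc (KG n k) m c ∧ ¬ Alternating D c := by
  refine ⟨8, 3, by norm_num, by norm_num, rfl, rfl, ?_⟩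
  intro D hD
  by_contra hcon
  push Not at hcon
  refine no_good D ?_ (no_path D hcon)
  intro u v huv
  have := hD.2 u v (adj_of_disjoint huv)
  by_cases h : D v u
  · exact Or.inr h
  · exact Or.inl (this.2 h)

end Pool.Agent.Results.MP_573991_co.KG83
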